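import Pool.Agent.N783.CF.Stm

/-!
# Project CF: many polynomials are used
-/

set_option autoImplicit false

open Polynomial NumberField Matrix
open scoped Classical

namespace Pool.Agent.N93.CF

open Pool.Agent.N783.CF
open Pool.Agent.N352.PJ (dd)
open Pool.Agent.N783.PF (Bd Ht dsc fF SqF IsGen Fam GoodS GoodF LBad Cg sp rd)

theorem t_MANY : S_FEW → S_FAMQ → S_MANY := by
  intro hFEW hFAMQ g F _ _ hg
  obtain ⟨c, hc, B₀, hB₀⟩ := hFAMQ g F hg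
  obtain ⟨δ, hδ, B₁, hB₁⟩ := hFEW g F hg (c / 2) (by positivity)
  refine ⟨δ, hδ, c / 2, by positivity, max B₀ B₁, fun B hB => ?_⟩
  obtain ⟨hfin, hge⟩ := hB₀ B ((le_max_left _ _).trans hB)
  obtain ⟨hfin2, hle⟩ := hB₁ B ((le_max_right _ _).trans hB)
  have hG : {f : (𝓞 F)[X] | Gd g B δ f}.Finite := hfin.subset (fun f hf => hf.ht)
  refine ⟨hG, ?_⟩
  set S1 : Set (𝓞 F)[X] := {f : (𝓞 F)[X] | Ht g B f ∧ Irreducible (fF f) ∧ SqF g f ∧ Two g f}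
  set S2 : Set (𝓞 F)[X] := {f : (𝓞 F)[X] | Ht g B f ∧ ¬ Big g B δ f}
  have h1 : S1 \ S2 ⊆ {f : (𝓞 F)[X] | Gd g B δ f} := by
    rintro f ⟨⟨h1, h2, h3, h4⟩, h5⟩
    refine ⟨h1, h2, h3, h4, ?_⟩
    by_contra hb
    exact h5 ⟨h1, hb⟩
  have h2 : S1.ncard ≤ (S1 \ S2).ncard + S2.ncard := Set.ncard_le_ncard_sdiff_add_ncard S1 S2 hfin2
  have h3 : (S1 \ S2).ncard ≤ {f : (𝓞 F)[X] | Gd g B δ f}.ncard := Set.ncard_le_ncard h1 hG
  have h4 : (S1.ncard : ℝ) ≤ ({f : (𝓞 F)[X] | Gd g B δ f}.ncard : ℝ) + (S2.ncard : ℝ) := by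
    exact_mod_cast h2.trans (Nat.add_le_add_right h3 _)
  have h5 : c * (B : ℝ) ^ (Module.finrank ℚ F * dd g) =
      c / 2 * (B : ℝ) ^ (Module.finrank ℚ F * dd g) +
      c / 2 * (B : ℝ) ^ (Module.finrank ℚ F * dd g) := by ring
  linarith

end Pool.Agent.N93.CF
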